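import Pool.Agent.Helper79.EdgeAdd.Hard

/-!
# Weighted min-EDGE-ADD is NP-hard

For every fixed rational `0 ≤ ε < 1/2`, the decision version of weighted min-EDGE-ADD
(is there a set `F` of at most `k` non-edges such that the weighted graph `(V, E ∪ F)` is
stable?) is NP-hard, already for instances in which all edges have weight `1` and all non-edges
have weight `ε` or `1`.  NP and polynomial-time many-one reductions are defined through
Mathlib's `Turing.TM2ComputableInPolyTime`; the Cook-Levin type theorem that is needed is
proved in `Pool.Agent.Helper79.Complexity`.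
-/

open Pool.Agent.Helper79.Complexity Pool.Agent.Helper79.EdgeAdd

/-- **Weighted min-EDGE-ADD is NP-hard**, even when `w = 1` on all edges and
`w' ∈ {ε, 1}` on all non-edges, for any fixed rational `0 ≤ ε < 1/2`. -/
theorem Pool.Agent.Results.MP_6f953e_lc.NPHard.result (ε : ℚ≥0) (hε : ε < 1 / 2) :
    NPHardOn instEncoding (unitInstances ε) {I : Inst | I.Yes} :=
  npHard_edgeAdd ε hε
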